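import Pool.Agent.SGB.Stmts

/-!
# Squad SGB, row CRD: cardinalities of subgroups
-/

set_option autoImplicit false
set_option linter.unusedSectionVars false

namespace Pool.Agent.SGB.H56

universe u

variable {H : Type u} [AddCommGroup H] [Finite H]

theorem cd_one_le (A : AddSubgroup H) : 1 ≤ cd A := by
  unfold cd
  exact_mod_cast Nat.card_pos (α := A)

theorem cd_mono {A B : AddSubgroup H} (h : A ≤ B) : cd A ≤ cd B := by
  unfold cd
  exact_mod_cast Nat.le_of_dvd (Nat.card_pos (α := B)) (AddSubgroup.card_dvd_of_le h)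

theorem cd_le (A : AddSubgroup H) : cd A ≤ nn H := by
  unfold cd nn
  exact_mod_cast Nat.le_of_dvd (Nat.card_pos (α := H)) (AddSubgroup.card_addSubgroup_dvd_card A)

theorem cd_bot : cd (⊥ : AddSubgroup H) = 1 := by
  unfold cd
  rw [AddSubgroup.card_bot, Nat.cast_one]

theorem rel_card {A B : AddSubgroup H} (h : A ≤ B) : A.relIndex B * Nat.card A = Nat.card B := by
  have h1 := AddSubgroup.relIndex_mul_relIndex ⊥ A B bot_le h
  rw [AddSubgroup.relIndex_bot_left, AddSubgroup.relIndex_bot_left] at h1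
  rw [mul_comm]
  exact h1

theorem cd_mul (A B : AddSubgroup H) : cd (A ⊓ B) * cd (A ⊔ B) = cd A * cd B := by
  have h1 : A.relIndex (A ⊔ B) * Nat.card A = Nat.card (A ⊔ B : AddSubgroup H) :=
    rel_card le_sup_left
  have h2 : (A ⊓ B).relIndex B * Nat.card (A ⊓ B : AddSubgroup H) = Nat.card B :=
    rel_card inf_le_right
  have h3 : A.relIndex (A ⊔ B) = A.relIndex B := by
    exact AddSubgroup.relIndex_sup_left B A
  have h4 : (A ⊓ B).relIndex B = A.relIndex B := AddSubgroup.inf_relIndex_right A B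
  rw [h3] at h1
  rw [h4] at h2
  unfold cd
  rw [← h1, ← h2]
  push_cast
  ring

/-- CRD -/
theorem crd : CRDStmt.{u} := by
  intro H _ _
  refine ⟨cd_mul, ?_, fun A B h => cd_mono h, fun A => ⟨cd_one_le A, cd_le A⟩, cd_bot⟩
  intro A S T hST
  have h1 := cd_mul (A ⊓ S) (A ⊓ T)
  have h2 : (A ⊓ S) ⊓ (A ⊓ T) = ⊥ := by
    rw [eq_bot_iff, ← hST]
    exact inf_le_inf inf_le_right inf_le_right
  rw [h2, cd_bot, one_mul] at h1
  rw [← h1]
  exact cd_mono (sup_le inf_le_left inf_le_left)

end Pool.Agent.SGB.H56
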